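import Mathlib
import Pool.Agent.Run7.h168.Mult.Field

/-!
# The field generated by numbers with digits of low complexity, and `π`

`S(X) = s_1 X + ⋯ + s_L X^L`, where the `s_i` are the digits of a real number `y` in base `b` after
at most `K` of them have been changed.  The `K`-error algebraic complexity `N_b(y) = N_b(y; r, K, L)`
is the least `k` such that `X^(L+1)` divides `P(X, S(X))` for some nonzero polynomial `P(X, Y)` of
degree at most `r` in `Y` and at most `k` in `X` and some such choice of `S`; for `r = 1` this is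
essentially the linear complexity.

(1) Let `u_1, …, u_m` be real numbers such that `π` is algebraic over `ℚ(u_1, …, u_m)`. For every `D`
there are `κ, C > 0` such that for all nonzero integer polynomials `P_1, …, P_m` of degree at most
`D` with coefficients at most `H` in absolute value one of the numbers `|P_i(u_i)|` is at least
`C H^(-κ)`.

(2) Let `u_1, …, u_m` be any real numbers (for instance polynomials in `π` and odd zeta values). For
every `r` there is `A` such that for all bases `b_i`, all `K_i`, all `L_i` and all `M ≤ L_i log b_i`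
the number `π` is transcendental over the field generated by those `u_i` with
`A^(K_1 + ⋯ + K_m + 1) (N(u_i) + 1) log b_i < M`, where `N(u_i) = N_(b_i)(u_i; r, K_i, L_i)`.

(3) For every monic real polynomial `f` with `f(π) = 0` and every `r` there is `c > 0` such that in
every base `b`, for all `K` and `L`, the numbers `N_b(a) + 1`, where `a` runs through the coefficients
of `f` except the leading one, have a sum of at least `c^(K+1) L`.

(4) This holds for the polynomial with the roots `π, ζ(3), ζ(5), …, ζ(2n+1)`, whose coefficients are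
the elementary symmetric functions of these numbers, up to the signs.

Proof.  Let `F(π, u) = 0`, `F(X, u) ≠ 0`.  All `m` numbers are eliminated from the equation
`Z = F(X, Y)`, with resultants, by the equations `P_i(Y_i) = 0`; this gives a polynomial `N(X, Z)`, and
its lowest nonzero coefficient with respect to `Z` is a nonzero polynomial in `X` which is small at
`X = π`, since there is a tuple of roots `α` near `u` and `F(π, α)` is small and not zero.  This
contradicts the transcendence measure of `π` (starting files).  A relation for the digits of `u_i`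
gives a polynomial `P_i` (Siegel's lemma, starting files), and the last changed digit is bounded by
induction.
-/

set_option autoImplicit false

namespace Pool.Agent.Results.MP_a89d6d_nt.FieldOfSimpleNumbers

open Finset Polynomial

/-- the `i`-th digit of `x` after the point in base `b` -/
noncomputable def digit (b : ℕ) (x : ℝ) (i : ℕ) : ℤ := ⌊x * (b : ℝ) ^ i⌋ % (b : ℤ)

/-- the polynomial `s_1 X + s_2 X^2 + ⋯ + s_L X^L` -/
noncomputable def seqPoly (s : ℕ → ℤ) (L : ℕ) : ℚ[X] := ∑ l ∈ Icc 1 L, C (s l : ℚ) * X ^ l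

/-- `s` is a sequence of base `b` digits, and among the places `1, …, L` at most `K` are such that
`s_l` is not the `l`-th digit of `x` -/
def Near (b : ℕ) (x : ℝ) (K L : ℕ) (s : ℕ → ℤ) : Prop :=
  (∀ l, 0 ≤ s l ∧ s l < b) ∧ {l : ℕ | 1 ≤ l ∧ l ≤ L ∧ s l ≠ digit b x l}.ncard ≤ K

/-- there is a nonzero polynomial `P(X, Y)` over `ℚ` of degree `≤ r` in `Y` and `≤ k` in `X` such
that `P(X, S(X))` is divisible by `X^(L+1)`, where `S` is the polynomial of the first `L` terms
of `s` -/
def AlgRelation (s : ℕ → ℤ) (r L k : ℕ) : Prop :=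
  ∃ P : ℚ[X][X], P ≠ 0 ∧ P.natDegree ≤ r ∧ (∀ j, (P.coeff j).natDegree ≤ k) ∧
    X ^ (L + 1) ∣ P.eval (seqPoly s L)

/-- the `K`-error algebraic complexity of degree `r` of the first `L` digits of `x` in base `b`: the
least `k` such that after the change of at most `K` of the digits there is a relation with
coefficients of degree at most `k` -/
noncomputable def complexity (b : ℕ) (x : ℝ) (r K L : ℕ) : ℕ :=
  sInf {k : ℕ | ∃ s, Near b x K L s ∧ AlgRelation s r L k}

/-- joint transcendence measure, polynomial in the height for every degree -/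
def Measure {m : ℕ} (u : Fin m → ℝ) : Prop :=
  ∀ D : ℕ, ∃ κ C : ℝ, 0 < κ ∧ 0 < C ∧ ∀ P : Fin m → ℤ[X], (∀ i, P i ≠ 0) →
    (∀ i, (P i).natDegree ≤ D) → ∀ H : ℝ, (∀ i k, |(((P i).coeff k : ℤ) : ℝ)| ≤ H) →
    ∃ i, C * H ^ (-κ) ≤ |aeval (u i) (P i)|

/-- The number `π` is transcendental over the field generated by the `u_i` of low complexity. -/
def LowField (A : ℝ) (r : ℕ) {m : ℕ} (u : Fin m → ℝ) : Prop :=
  ∀ b : Fin m → ℕ, (∀ i, 2 ≤ b i) → ∀ K L : Fin m → ℕ, ∀ M : ℝ, (∀ i, M ≤ L i * Real.log (b i)) →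
    Transcendental (IntermediateField.adjoin ℚ (u '' {i | A ^ (∑ j, K j + 1) *
      ((complexity (b i) (u i) r (K i) (L i) + 1) * Real.log (b i)) < M})) Real.pi

/-- `ζ(k)` -/
noncomputable def zeta (k : ℕ) : ℝ := ∑' l : ℕ, 1 / ((l : ℝ) + 1) ^ k

/-- the polynomial with the roots `π, ζ(3), ζ(5), …, ζ(2n+1)` -/
noncomputable def poly (n : ℕ) : ℝ[X] :=
  (X - C Real.pi) * ∏ j ∈ range n, (X - C (zeta (2 * j + 3)))

/-- the lower bound for the coefficients of `f` -/
def CoeffBound (f : ℝ[X]) (r : ℕ) (c : ℝ) : Prop :=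
  ∀ b : ℕ, 2 ≤ b → ∀ K L : ℕ, c ^ (K + 1) * L ≤
    ∑ i ∈ range f.natDegree, ((complexity b (f.coeff i) r K L : ℝ) + 1)

lemma coeff_bound (f : ℝ[X]) (hf : f.Monic) (h0 : f.eval Real.pi = 0) (r : ℕ) :
    ∃ c : ℝ, 0 < c ∧ CoeffBound f r c := by
  obtain ⟨n, hn⟩ : ∃ n, n = f.natDegree := ⟨_, rfl⟩
  obtain ⟨u, hu⟩ : ∃ u : Fin n → ℝ, u = fun i : Fin n => f.coeff i := ⟨_, rfl⟩
  have halg : IsAlgebraic (Algebra.adjoin ℤ (Set.range u)) Real.pi := by
    have h1 : f ∈ Polynomial.lifts (algebraMap (Algebra.adjoin ℤ (Set.range u)) ℝ) := by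
      rw [Polynomial.lifts_iff_coeff_lifts]
      intro k
      rcases lt_trichotomy k n with hk | hk | hk
      · exact ⟨⟨u ⟨k, hk⟩, Algebra.subset_adjoin ⟨_, rfl⟩⟩, by rw [hu]; rfl⟩
      · refine ⟨1, ?_⟩
        rw [map_one, hk, hn]
        exact hf.symm
      · refine ⟨0, ?_⟩
        rw [map_zero, coeff_eq_zero_of_natDegree_lt (by omega)]
    obtain ⟨p, hp⟩ := (Polynomial.mem_lifts _).1 h1
    refine ⟨p, ?_, ?_⟩
    · rintro rfl
      rw [Polynomial.map_zero] at hp
      exact hf.ne_zero hp.symm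
    · rw [aeval_def, ← eval_map, hp, h0]
  obtain ⟨A, hA, h⟩ := Pool.Agent.Run7.h168.Mult.digitsM u
    (Pool.Agent.Run7.h168.Mult.jointM_of_algebraic Real.pi Pool.Agent.TH456.TM.measT_pi u halg) r
  have hA0 : 0 < A := by linarith
  refine ⟨1 / A ^ (n + 1), by positivity, ?_⟩
  intro b hb K L
  have hl : 0 < Real.log b := Real.log_pos (by exact_mod_cast (by omega : 1 < b))
  have h2 := h (fun _ => b) (fun _ => hb) (fun _ => K) (fun _ => L) (L * Real.log b) (fun _ => le_rfl)
  rw [← Finset.sum_mul, ← mul_assoc] at h2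
  have h3 := le_of_mul_le_mul_right h2 hl
  have e1 : ∑ i : Fin n, ((Pool.Agent.R473.JC.complexity b (u i) r K L : ℝ) + 1) =
      ∑ i ∈ range f.natDegree, ((complexity b (f.coeff i) r K L : ℝ) + 1) := by
    rw [← hn, Finset.sum_range, hu]
    rfl
  rw [e1] at h3
  have e2 : ∑ _i : Fin n, K + 1 ≤ (n + 1) * (K + 1) := by
    rw [Finset.sum_const, Finset.card_univ, Fintype.card_fin, smul_eq_mul]
    nlinarith
  have hS : 0 ≤ ∑ i ∈ range f.natDegree, ((complexity b (f.coeff i) r K L : ℝ) + 1) :=
    Finset.sum_nonneg fun i _ => by positivity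
  have h4 : (L : ℝ) ≤ (A ^ (n + 1)) ^ (K + 1) *
      ∑ i ∈ range f.natDegree, ((complexity b (f.coeff i) r K L : ℝ) + 1) := by
    refine h3.trans (mul_le_mul_of_nonneg_right ?_ hS)
    rw [← pow_mul]
    exact pow_le_pow_right₀ hA e2
  rw [div_pow, one_pow, div_mul_eq_mul_div, one_mul, div_le_iff₀ (by positivity), mul_comm]
  exact h4

theorem result :
    (∀ (m : ℕ) (u : Fin m → ℝ), IsAlgebraic (IntermediateField.adjoin ℚ (Set.range u)) Real.pi →
      Measure u) ∧
    (∀ (m : ℕ) (u : Fin m → ℝ) (r : ℕ), ∃ A : ℝ, 1 ≤ A ∧ LowField A r u) ∧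
    (∀ f : ℝ[X], f.Monic → f.eval Real.pi = 0 → ∀ r : ℕ, ∃ c : ℝ, 0 < c ∧ CoeffBound f r c) ∧
    (∀ n r : ℕ, ∃ c : ℝ, 0 < c ∧ CoeffBound (poly n) r c) := by
  refine ⟨fun m u h => ?_, fun m u r => ?_, fun f hf h0 r => coeff_bound f hf h0 r, fun n r => ?_⟩
  · exact Pool.Agent.Run7.h168.Mult.jointM_of_field Real.pi Pool.Agent.TH456.TM.measT_pi u h
  · obtain ⟨A, hA, h⟩ := Pool.Agent.Run7.h168.Mult.low_field Real.pi Pool.Agent.TH456.TM.measT_pi u r
    refine ⟨A, hA, fun b hb K L M hM => ?_⟩
    classical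
    have h1 := h b hb K L M hM (Finset.univ.filter fun i => A ^ (∑ j, K j + 1) *
      ((complexity (b i) (u i) r (K i) (L i) + 1) * Real.log (b i)) < M)
      (fun i hi => (Finset.mem_filter.1 hi).2)
    have h2 : ((Finset.univ.filter fun i => A ^ (∑ j, K j + 1) *
        ((complexity (b i) (u i) r (K i) (L i) + 1) * Real.log (b i)) < M : Finset (Fin m)) : Set (Fin m)) =
        {i | A ^ (∑ j, K j + 1) * ((complexity (b i) (u i) r (K i) (L i) + 1) * Real.log (b i)) < M} := by
      ext i
      simp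
    rw [h2] at h1
    exact h1
  · refine coeff_bound (poly n) ?_ ?_ r
    · unfold poly
      exact (monic_X_sub_C _).mul (monic_prod_of_monic _ _ fun j _ => monic_X_sub_C _)
    · unfold poly
      rw [eval_mul, eval_sub, eval_X, eval_C, sub_self, zero_mul]

end Pool.Agent.Results.MP_a89d6d_nt.FieldOfSimpleNumbers
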