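import Mathlib
import Pool.Agent.R473.JC.Final
import Pool.Agent.Run7.h168.Z3.Inc
import Pool.Agent.R352.Q.Three

/-!
# The digits of zeta values and of incomplete zeta values

`S(X) = s_1 X + ⋯ + s_L X^L`, where the `s_i` are the digits of a real number `y` in base `b` after
at most `K` of them have been changed.  The `K`-error algebraic complexity `N_b(y) = N_b(y; r, K, L)`
is the least `k` such that `X^(L+1)` divides `P(X, S(X))` for some nonzero polynomial `P(X, Y)` of
degree at most `r` in `Y` and at most `k` in `X` and some such choice of `S`; for `r = 1` this is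
essentially the linear complexity.

Let `w ≥ 2`, `ω = exp (2 π i / w)`, and for `x > 0` let `R_w(x)` be the real part of
`(-1)^w / w! * ∫ (∑_j ω^j log t_j)^w exp (-∑_j t_j) dt`, the integral being over
`(0, ∞)^w \ (0, x)^w`; the same integral over the whole octant `(0, ∞)^w` is `ζ(w)`.

For every finite set of positive rational numbers `x`, every finite set of rational numbers `s` and
every `r` there is `c > 0` such that in every base `b`, for all `K` and all `L`, at most one of the
numbers `y = e^s ζ(w)`, `e^s R_w(x)` satisfies `N_b(y) + 1 < c^(K+1) L` (several multiples of one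
`R_w(x)` are allowed if `R_w(x) ≠ 0`).

Proof.  A relation for the digits of `u` gives an integer polynomial `P` of degree at most `r` with
small coefficients and a very small value `P(u)` (Siegel's lemma); the last changed digit is bounded
by induction (`Pool.Agent.R473.JC`).  `ζ(w) - R_w(x)` is a polynomial in `e^(-x)` and the values
`E_l(x)`, `l ≤ w`, of iterated exponential integrals, and these numbers (for several `x`) have a
measure of algebraic independence (quantitative theorem of Siegel and Shidlovskii,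
`Pool.Agent.N743.SS`), so that `P(u)` and `Q(v)` cannot both be very small for two of the numbers.
-/

set_option autoImplicit false

namespace Pool.Agent.Results.MP_c2395a_nt.JointDigitsIncompleteZeta

open Finset Polynomial Module MeasureTheory

/-- the `i`-th digit of `x` after the point in base `b` -/
noncomputable def digit (b : ℕ) (x : ℝ) (i : ℕ) : ℤ := ⌊x * (b : ℝ) ^ i⌋ % (b : ℤ)

/-- the polynomial `s_1 X + s_2 X^2 + ⋯ + s_L X^L` -/
noncomputable def seqPoly (s : ℕ → ℤ) (L : ℕ) : ℚ[X] := ∑ l ∈ Icc 1 L, C (s l : ℚ) * X ^ l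

/-- `s` is a sequence of base `b` digits, and among the places `1, …, L` at most `K` are such that
`s_l` is not the `l`-th digit of `x` -/
def Near (b : ℕ) (x : ℝ) (K L : ℕ) (s : ℕ → ℤ) : Prop :=
  (∀ l, 0 ≤ s l ∧ s l < b) ∧ {l : ℕ | 1 ≤ l ∧ l ≤ L ∧ s l ≠ digit b x l}.ncard ≤ K

/-- there is a nonzero polynomial `P(X, Y)` over `ℚ` of degree `≤ r` in `Y` and `≤ k` in `X` such
that `P(X, S(X))` is divisible by `X^(L+1)`, where `S` is the polynomial of the first `L` terms
of `s` -/
def AlgRelation (s : ℕ → ℤ) (r L k : ℕ) : Prop :=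
  ∃ P : ℚ[X][X], P ≠ 0 ∧ P.natDegree ≤ r ∧ (∀ j, (P.coeff j).natDegree ≤ k) ∧
    X ^ (L + 1) ∣ P.eval (seqPoly s L)

/-- the `K`-error algebraic complexity of degree `r` of the first `L` digits of `x` in base `b`: the
least `k` such that after the change of at most `K` of the digits there is a relation with
coefficients of degree at most `k` -/
noncomputable def complexity (b : ℕ) (x : ℝ) (r K L : ℕ) : ℕ :=
  sInf {k : ℕ | ∃ s, Near b x K L s ∧ AlgRelation s r L k}

/-- the joint lower bound for `u` and `v` in degree `r`, with the constant `A`, in all pairs of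
bases, for all lengths and all numbers of errors -/
def Bound (A : ℝ) (r : ℕ) (u v : ℝ) : Prop :=
  ∀ b b' : ℕ, 2 ≤ b → 2 ≤ b' → ∀ K K' L L' : ℕ,
    min (L * Real.log b) (L' * Real.log b') ≤
      A ^ (K + K' + 1) * ((complexity b u r K L + 1) * Real.log b +
        (complexity b' v r K' L' + 1) * Real.log b')

/-- `ζ(w)` -/
noncomputable def zeta (w : ℕ) : ℝ := ∑' k : ℕ, 1 / ((k : ℝ) + 1) ^ w

/-- `ω = exp (2 π i / w)` -/
noncomputable def root (w : ℕ) : ℂ := Complex.exp (2 * Real.pi * Complex.I / w)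

/-- `(∑_j ω^j log t_j)^w exp (-∑_j t_j)` -/
noncomputable def integrand (w : ℕ) (t : Fin w → ℝ) : ℂ :=
  (∑ j : Fin w, root w ^ (j : ℕ) * (Real.log (t j) : ℂ)) ^ w * ((Real.exp (-∑ j, t j) : ℝ) : ℂ)

/-- the open octant -/
def octant (w : ℕ) : Set (Fin w → ℝ) := {t | ∀ j, 0 < t j}

/-- `(0, ∞)^w \ (0, x)^w` -/
def rest (w : ℕ) (x : ℝ) : Set (Fin w → ℝ) := {t | (∀ j, 0 < t j) ∧ ∃ j, x ≤ t j}

/-- the normalized integral over `D` -/
noncomputable def integral (w : ℕ) (D : Set (Fin w → ℝ)) : ℂ :=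
  (-1) ^ w / w.factorial * ∫ t in D, integrand w t

/-- the number `R_w(x)` -/
noncomputable def R (w : ℕ) (x : ℚ) : ℝ := (integral w (rest w x)).re

/-- the numbers `ζ(w)` (for `none`) and `R_w(x)` -/
noncomputable def num (w : ℕ) (o : Option ℚ) : ℝ := o.elim (zeta w) (R w)

lemma octant_eq (w : ℕ) : octant w = Pool.Agent.R352.Q.cube w (Set.Ioi 0) := by
  ext t
  simp [octant, Pool.Agent.R352.Q.cube]

lemma rest_eq (w : ℕ) (x : ℝ) :
    rest w x = Pool.Agent.R352.Q.cube w (Set.Ioi 0) \ Pool.Agent.R352.Q.cube w (Set.Ioo 0 x) := by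
  ext t
  simp only [rest, Pool.Agent.R352.Q.cube, Set.mem_sdiff, Set.mem_univ_pi, Set.mem_Ioi, Set.mem_Ioo]
  constructor
  · rintro ⟨h1, j, h2⟩
    exact ⟨h1, fun h => absurd (h j).2 (not_lt.2 h2)⟩
  · rintro ⟨h1, h2⟩
    push Not at h2
    obtain ⟨j, hj⟩ := h2
    exact ⟨h1, j, hj (h1 j)⟩

lemma integral_octant {w : ℕ} (hw : 2 ≤ w) : integral w (octant w) = (zeta w : ℂ) := by
  rw [octant_eq]
  exact Pool.Agent.R352.Q.NI_full hw

lemma integral_rest {w : ℕ} (hw : 2 ≤ w) {x : ℚ} (hx : 0 < x) :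
    integral w (rest w x) = (Pool.Agent.R352.Q.Rk w x : ℂ) := by
  have hx' : (0 : ℝ) < x := by exact_mod_cast hx
  have h : integral w (rest w x) = Pool.Agent.R352.Q.NI w
      (Pool.Agent.R352.Q.cube w (Set.Ioi 0) \ Pool.Agent.R352.Q.cube w (Set.Ioo 0 x)) := by
    rw [integral, rest_eq]
    rfl
  rw [h, Pool.Agent.R352.Q.NI_diff, Pool.Agent.R352.Q.NI_full hw, Pool.Agent.R352.Q.NI_box hw hx',
    Pool.Agent.R352.Q.Rk]
  push_cast
  rfl

lemma num_eq {w : ℕ} (hw : 2 ≤ w) (o : Option ℚ) (ho : ∀ x, o = some x → 0 < x) :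
    num w o = Run7.h168.Z3.zi w o := by
  cases o with
  | none => rfl
  | some x =>
    show R w x = Pool.Agent.R352.Q.Rk w x
    rw [R, integral_rest hw (ho x rfl), Complex.ofReal_re]

/-- the case of one base, one length and one number of errors -/
lemma one_base (u v A : ℝ) (hA : 1 ≤ A) (r : ℕ) (h : Bound A r u v) (b : ℕ) (hb : 2 ≤ b)
    (K L : ℕ) : (1 / A ^ 2) ^ (K + 1) * (L : ℝ) ≤
      complexity b u r K L + complexity b v r K L + 2 := by
  have hl : 0 < Real.log b := Real.log_pos (by exact_mod_cast (by omega : 1 < b))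
  have hA0 : 0 < A := by linarith
  have h1 := h b b hb hb K K L L
  rw [min_self] at h1
  have h2 : (L : ℝ) ≤ A ^ (K + K + 1) * (complexity b u r K L + complexity b v r K L + 2) := by
    have h3 : (L : ℝ) * Real.log b ≤
        (A ^ (K + K + 1) * (complexity b u r K L + complexity b v r K L + 2)) * Real.log b := by
      linarith
    exact le_of_mul_le_mul_right h3 hl
  have h4 : A ^ (K + K + 1) ≤ (A ^ 2) ^ (K + 1) := by
    rw [← pow_mul]
    exact pow_le_pow_right₀ hA (by omega)
  rw [div_pow, one_pow, div_mul_eq_mul_div, one_mul, div_le_iff₀ (by positivity)]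
  calc (L : ℝ) ≤ A ^ (K + K + 1) * (complexity b u r K L + complexity b v r K L + 2) := h2
    _ ≤ (A ^ 2) ^ (K + 1) * (complexity b u r K L + complexity b v r K L + 2) :=
        mul_le_mul_of_nonneg_right h4 (by positivity)
    _ = _ := by ring

lemma half_pow (A : ℝ) (hA : 1 ≤ A) (K : ℕ) :
    (1 / A ^ 2 / 2) ^ (K + 1) ≤ (1 / A ^ 2) ^ (K + 1) / 2 := by
  have hA0 : 0 < A := by linarith
  rw [div_pow (1 / A ^ 2) 2]
  refine div_le_div_of_nonneg_left (by positivity) (by norm_num) ?_
  calc (2 : ℝ) = 2 ^ 1 := by norm_num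
    _ ≤ 2 ^ (K + 1) := pow_le_pow_right₀ (by norm_num) (by omega)

/-- a finite family of numbers in which some pairs satisfy the joint bound -/
lemma family {ι : Type} [Finite ι] (y : ι → ℝ) (R : ι → ι → Prop)
    (hR : ∀ i j, R i j → Pool.Agent.R356.JointR (y i) (y j)) (r : ℕ) :
    ∃ A : ℝ, 1 ≤ A ∧ ∀ i j, R i j → Bound A r (y i) (y j) := by
  classical
  have := Fintype.ofFinite ι
  have h1 : ∀ p : ι × ι, ∃ A : ℝ, 1 ≤ A ∧ (R p.1 p.2 → Bound A r (y p.1) (y p.2)) := by
    intro p
    by_cases hp : R p.1 p.2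
    · obtain ⟨A, hA, h⟩ := Pool.Agent.R473.JC.pair (y p.1) (y p.2) (hR _ _ hp) r
      exact ⟨A, hA, fun _ => h⟩
    · exact ⟨1, le_rfl, fun h => absurd h hp⟩
  choose A hA h using h1
  have hA0 : ∀ p, 0 ≤ A p := fun p => by linarith [hA p]
  refine ⟨1 + ∑ p, A p, ?_, ?_⟩
  · have := Finset.sum_nonneg fun p (_ : p ∈ (Finset.univ : Finset (ι × ι))) => hA0 p
    linarith
  · intro i j hij b b' hb hb' K K' L L'
    refine (h (i, j) hij b b' hb hb' K K' L L').trans ?_
    have hb0 : 0 ≤ Real.log b := Real.log_nonneg (by exact_mod_cast (by omega : 1 ≤ b))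
    have hb0' : 0 ≤ Real.log b' := Real.log_nonneg (by exact_mod_cast (by omega : 1 ≤ b'))
    refine mul_le_mul_of_nonneg_right (pow_le_pow_left₀ (hA0 _) ?_ _) (by positivity)
    have := Finset.single_le_sum (fun p (_ : p ∈ (Finset.univ : Finset (ι × ι))) => hA0 p)
      (Finset.mem_univ (i, j))
    linarith

/-- **(1)** For `w ≥ 2` and rational `x > 0` the normalized integral is `ζ(w)` for the whole octant
and the real number `R_w(x)` for `(0, ∞)^w \ (0, x)^w`.

**(2)** Let `w ≥ 2` and let `T` be a finite set of pairs `(o, s)`, where `s` is rational and `o` is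
either `none`, standing for `ζ(w)`, or a positive rational number `x`, standing for `R_w(x)`.  For every
`r` there is `A ≥ 1` such that the joint lower bound
`min (L log β, L' log β') ≤ A^(K+K'+1) ((N + 1) log β + (N' + 1) log β')` (for all bases `β, β'`, all
lengths `L, L'` and all numbers of errors `K, K'`) holds for the numbers `u = e^s y`, `v = e^s' y'` that
belong to any two different elements of `T`, unless `y = y' = R_w(x) = 0`.

**(3)** If moreover the numbers which occur in `T` are not `0`, then for every `r` there is `c > 0`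
such that for all bases `b ≥ 2`, all `K` and all `L` at most one of the numbers `y = e^s ζ(w), e^s R_w(x)`
that belong to the elements of `T` satisfies `N_b(y; r, K, L) + 1 < c^(K+1) L`. -/
theorem result (w : ℕ) (hw : 2 ≤ w) :
    (integral w (octant w) = (zeta w : ℂ) ∧
      ∀ x : ℚ, 0 < x → integral w (rest w x) = (R w x : ℂ)) ∧
    (∀ T : Finset (Option ℚ × ℚ), (∀ p ∈ T, ∀ x, p.1 = some x → 0 < x) → ∀ r : ℕ,
      ∃ A : ℝ, 1 ≤ A ∧ ∀ p ∈ T, ∀ q ∈ T, p ≠ q → (p.1 = q.1 → num w p.1 ≠ 0) →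
        Bound A r (Real.exp p.2 * num w p.1) (Real.exp q.2 * num w q.1)) ∧
    (∀ T : Finset (Option ℚ × ℚ), (∀ p ∈ T, ∀ x, p.1 = some x → 0 < x) →
      (∀ p ∈ T, num w p.1 ≠ 0) → ∀ r : ℕ, ∃ c : ℝ, 0 < c ∧ ∀ b : ℕ, 2 ≤ b → ∀ K L : ℕ,
        ∀ p ∈ T, ∀ q ∈ T,
          complexity b (Real.exp p.2 * num w p.1) r K L + 1 < c ^ (K + 1) * L →
          complexity b (Real.exp q.2 * num w q.1) r K L + 1 < c ^ (K + 1) * L → p = q) := by
  have part2 : ∀ T : Finset (Option ℚ × ℚ), (∀ p ∈ T, ∀ x, p.1 = some x → 0 < x) → ∀ r : ℕ,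
      ∃ A : ℝ, 1 ≤ A ∧ ∀ p ∈ T, ∀ q ∈ T, p ≠ q → (p.1 = q.1 → num w p.1 ≠ 0) →
        Bound A r (Real.exp p.2 * num w p.1) (Real.exp q.2 * num w q.1) := by
    intro T hT r
    obtain ⟨A, hA, h⟩ := family (ι := T) (fun p => Real.exp p.1.2 * num w p.1.1)
      (fun p q => p ≠ q ∧ (p.1.1 = q.1.1 → num w p.1.1 ≠ 0)) (fun p q hpq => by
        have hp := hT p.1 p.2
        have hq := hT q.1 q.2
        rw [num_eq hw _ hp, num_eq hw _ hq]
        refine Run7.h168.Z3.joint_zi w hw p.1.1 q.1.1 hp hq p.1.2 q.1.2 (fun h => ⟨fun hs => ?_, ?_⟩)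
        · exact hpq.1 (Subtype.ext (Prod.ext h hs))
        · have := hpq.2 h
          rwa [num_eq hw _ hp] at this) r
    exact ⟨A, hA, fun p hp q hq hpq h0 =>
      h ⟨p, hp⟩ ⟨q, hq⟩ ⟨fun h => hpq (congrArg Subtype.val h), h0⟩⟩
  refine ⟨⟨integral_octant hw, fun x hx => ?_⟩, part2, fun T hT hne r => ?_⟩
  · have h := integral_rest hw hx
    rw [R, h, Complex.ofReal_re]
  · obtain ⟨A, hA, h⟩ := part2 T hT r
    have hA0 : 0 < A := by linarith
    refine ⟨1 / A ^ 2 / 2, by positivity, fun b hb K L p hp q hq h1 h2 => ?_⟩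
    by_contra hpq
    have h3 := one_base _ _ A hA r (h p hp q hq hpq (fun _ => hne p hp)) b hb K L
    have h5 : (1 / A ^ 2 / 2) ^ (K + 1) * (L : ℝ) ≤ (1 / A ^ 2) ^ (K + 1) / 2 * L :=
      mul_le_mul_of_nonneg_right (half_pow A hA K) (Nat.cast_nonneg L)
    linarith

end Pool.Agent.Results.MP_c2395a_nt.JointDigitsIncompleteZeta
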