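import Mathlib
import Pool.Agent.Run7.h168.Poly.Str
import Pool.Agent.Run7.h168.Mult.Wrap

/-!
# All numbers `F(π, e)/m` at once: at every scale the simple ones come from one curve

Let `x` be `e`, `π` or the logarithm of a rational number and let `ξ` be ANY real number: `ξ = π` if `x = e`, or
`ξ = e ^ e`, `π ^ π`, `π ^ e`, …. Consider all numbers `y = F(ξ, x)/m` with an integer polynomial `F` of degree
`≤ D` and an integer `m ≥ 1`; for `ξ = π`, `x = e` these are `π + e`, `π - e`, `π e`, `a π + b e`, `π² + e²`, ….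

The digits of `y` in base `b` have a simple description up to the place `L`, if `N_b(y; r, K, L)` is small. This is
the least `k` such that, after the removal of at most `K` of the places `1, …, L`, the digits of `y` at the places
`u+1, …, v` of every interval without removed places are terms of a sequence `s` of base `b` digits for which
`X^(v+1)` divides `P(X, s_1 X + ⋯ + s_v X^v)` for some nonzero polynomial `P(X, Y)` of degree `≤ r` in `Y` and of
degree `≤ k + r u` in `X`. So the description may change at every removed place, and copies of parts of the digits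
which start earlier are free (`Run7.h168.Lin.desc_of_copy`).

Theorem. For all `D`, `r`, `K` there is `θ > 0` such that at every scale `X ≥ X₀` there are `K + 1` irreducible
polynomials `R_0, …, R_K` in two variables, each of them containing the first variable (the one of `ξ`), such that
`N_b(F(ξ, x)/m; r, K, L) log b > θ X` for all `F` of degree `≤ D` and height `≤ e^(θ X)` which are not algebraic
modulo any of the `R_j`, all `m ≤ e^(θ X)`, all bases with `log b ≤ θ X` and all `L ≥ X / log b`.

`F` is algebraic modulo `R` if `R` divides `P(F)` for a nonzero polynomial `P` in one variable, that is, if `F` is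
constant on the components of the curve `R = 0`. So for `K = 0` all simple numbers `F(π, e)/m` at the scale `X` come
from polynomials which are constant on one and the same curve, which is not a vertical line. If `e` is algebraic over
`ℚ(F_1(π, e), F_2(π, e))` as a function, then `F_1` and `F_2` are not both algebraic modulo `R`; so of `π + e`,
`π - e`, `π e`, `π² + e²`, … at most one is simple at one scale (with `K = 0`), and the same is true for all such
families with coefficients up to `e^(θ X)`. `θ` depends on `x`, `D`, `r`, `K` only, and `X₀` also on a bound for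
`|ξ|`.

Proof. Among `K + 1` windows of places `(η^(j+1) X / log b, η^j X / log b]` one contains no removed place. The
digits in this window give an integer polynomial `P` of degree `≤ r` with `P(y)` very small compared to its
coefficients, so `R(T, X) = m^r P(F(T, X)/m)` is a near relation between `ξ` and `x`. All such near relations at one
scale are multiples of one irreducible polynomial, by the measure of transcendence of `x`.
-/

set_option autoImplicit false

namespace Pool.Agent.Results.MP_a49cf6_nt.PolynomialValuesAtEveryScale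

open Finset Polynomial

/-- the `i`-th digit of `x` after the point in base `b` -/
noncomputable def digit (b : ℕ) (x : ℝ) (i : ℕ) : ℤ := ⌊x * (b : ℝ) ^ i⌋ % (b : ℤ)

/-- the polynomial `s_1 X + s_2 X^2 + ⋯ + s_L X^L` -/
noncomputable def seqPoly (s : ℕ → ℤ) (L : ℕ) : ℚ[X] := ∑ l ∈ Icc 1 L, C (s l : ℚ) * X ^ l

/-- there is a nonzero polynomial `P(X, Y)` over `ℚ` of degree `≤ r` in `Y` and `≤ k` in `X` such
that `P(X, S(X))` is divisible by `X^(L+1)`, where `S` is the polynomial of the first `L` terms
of `s` -/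
def AlgRelation (s : ℕ → ℤ) (r L k : ℕ) : Prop :=
  ∃ P : ℚ[X][X], P ≠ 0 ∧ P.natDegree ≤ r ∧ (∀ j, (P.coeff j).natDegree ≤ k) ∧
    X ^ (L + 1) ∣ P.eval (seqPoly s L)

/-- the digits of `y` at the places `u+1, …, v` are the terms at these places of a sequence `s` of base `b`
digits, and the first `v` terms of `s` satisfy an algebraic relation of degree `≤ r` with coefficients of
degree `≤ k + r u` -/
def Described (b : ℕ) (y : ℝ) (r k u v : ℕ) : Prop :=
  ∃ s : ℕ → ℤ, (∀ l, 0 ≤ s l ∧ s l < b) ∧ (∀ l, u < l → l ≤ v → s l = digit b y l) ∧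
    AlgRelation s r v (k + r * u)

/-- there is a set `S` of at most `K` places such that the digits of `y` at the places `u+1, …, v ≤ L` are
described with the parameter `k`, whenever none of these places is in `S` -/
def PieceByPiece (b : ℕ) (y : ℝ) (r K L k : ℕ) : Prop :=
  ∃ S : Finset ℕ, S.card ≤ K ∧
    ∀ u v, u ≤ v → v ≤ L → (∀ t ∈ S, t ≤ u ∨ v < t) → Described b y r k u v

/-- `N_b(y; r, K, L)`: the least such `k` -/
noncomputable def complexity (b : ℕ) (y : ℝ) (r K L : ℕ) : ℕ := sInf {k : ℕ | PieceByPiece b y r K L k}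

/-- `F` is algebraic of degree `≤ r` modulo `R` -/
def AlgebraicModulo (r : ℕ) (R F : MvPolynomial (Fin 2) ℤ) : Prop :=
  ∃ P : ℤ[X], P ≠ 0 ∧ P.natDegree ≤ r ∧ R ∣ aeval F P

/-- the coefficients of `F` have absolute value at most `H` -/
def Height (F : MvPolynomial (Fin 2) ℤ) (H : ℝ) : Prop := ∀ s, |((F.coeff s : ℤ) : ℝ)| ≤ H

theorem result (x : ℝ) (hx : x = Real.exp 1 ∨ x = Real.pi ∨ ∃ q : ℚ, 0 < q ∧ q ≠ 1 ∧ x = Real.log q)
    (D r K : ℕ) : ∃ θ : ℝ, 0 < θ ∧ ∀ T : ℝ, 1 ≤ T → ∃ X₀ : ℝ, ∀ ξ : ℝ, |ξ| ≤ T → ∀ X : ℝ, X₀ ≤ X →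
      ∃ R : Fin (K + 1) → MvPolynomial (Fin 2) ℤ,
        (∀ j, Irreducible (R j) ∧ 0 < (R j).degreeOf 0 ∧ (R j).totalDegree ≤ r * D + 1 ∧
          Height (R j) (Real.exp X)) ∧
        ∀ F : MvPolynomial (Fin 2) ℤ, F.totalDegree ≤ D → Height F (Real.exp (θ * X)) →
          (∀ j, ¬ AlgebraicModulo r (R j) F) →
          ∀ m : ℤ, 1 ≤ m → (m : ℝ) ≤ Real.exp (θ * X) → ∀ b : ℕ, 2 ≤ b → Real.log b ≤ θ * X →
          ∀ L : ℕ, X ≤ L * Real.log b →
            θ * X < complexity b (MvPolynomial.aeval ![ξ, x] F / m) r K L * Real.log b := by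
  have hM : Pool.Agent.N743.SS.MeasM (![x] : Fin 1 → ℝ) := by
    have h := (Pool.Agent.Run7.h168.Mult.measM_unit x (Pool.Agent.R473.JC.measT_three x hx)).comp
      (fun _ : Fin 1 => ()) (fun _ _ _ => Subsingleton.elim _ _)
    have e : (![x] : Fin 1 → ℝ) = (fun _ : Unit => x) ∘ (fun _ : Fin 1 => ()) := by
      funext i
      rw [Subsingleton.elim i 0]
      rfl
    rw [e]
    exact h
  obtain ⟨θ, hθ, h⟩ := Pool.Agent.Run7.h168.Poly.simple_values ![x] hM D r K
  refine ⟨θ, hθ, fun T hT => ?_⟩
  obtain ⟨X₀, _, h⟩ := h T hT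
  refine ⟨X₀, fun ξ hξ X hX => ?_⟩
  obtain ⟨R, hR, h⟩ := h ξ hξ X hX
  refine ⟨R, hR, fun F hFD hFH hFR m hm hmH b hb hbX L hL => ?_⟩
  refine h F hFD hFH (fun j P hP0 hPd hdvd => hFR j ⟨P, hP0, hPd, hdvd⟩) m hm hmH b hb hbX L hL _ ?_
  refine Pool.Agent.Run7.h168.Lin.cutC_mem b _ (fun l => ?_) r K L
  have h1 : (0 : ℤ) < b := by omega
  exact ⟨Int.emod_nonneg _ h1.ne', Int.emod_lt_of_pos _ h1⟩

end Pool.Agent.Results.MP_a49cf6_nt.PolynomialValuesAtEveryScale
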